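import Mathlib

set_option autoImplicit false

namespace Pool.Agent.Results.MP_029391_gt.ThreeSpaces

/-- A correspondence between `X` and `Y`: a subset of `X × Y` whose two projections are onto. -/
def IsCorrespondence {X Y : Type} (S : Set (X × Y)) : Prop :=
  (∀ x : X, ∃ y : Y, (x, y) ∈ S) ∧ (∀ y : Y, ∃ x : X, (x, y) ∈ S)

/-- The distortion of `S`: the supremum of `|d(x,x') - d(y,y')|` over `(x,y), (x',y') ∈ S`. -/
noncomputable def distortion {X Y : Type} [MetricSpace X] [MetricSpace Y]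
    (S : Set (X × Y)) : ℝ :=
  sSup {r : ℝ | ∃ p ∈ S, ∃ q ∈ S, r = |dist p.1 q.1 - dist p.2 q.2|}

/-- The Gromov-Hausdorff distance: half the infimum of the distortions of correspondences. -/
noncomputable def dGH (X Y : Type) [MetricSpace X] [MetricSpace Y] : ℝ :=
  (1 / 2) * sInf {r : ℝ | ∃ S : Set (X × Y), IsCorrespondence S ∧ r = distortion S}

/-- An optimal correspondence: a correspondence whose distortion is `2 d_GH(X,Y)`. -/
def IsOptimal {X Y : Type} [MetricSpace X] [MetricSpace Y] (S : Set (X × Y)) : Prop :=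
  IsCorrespondence S ∧ distortion S = 2 * dGH X Y

section General

variable {X Y : Type} [MetricSpace X] [MetricSpace Y]

theorem distortion_nonneg (S : Set (X × Y)) : 0 ≤ distortion S := by
  apply Real.sSup_nonneg
  rintro r ⟨p, -, q, -, rfl⟩
  exact abs_nonneg _

theorem distortion_le (S : Set (X × Y)) {c : ℝ} (hc : 0 ≤ c)
    (h : ∀ p ∈ S, ∀ q ∈ S, |dist p.1 q.1 - dist p.2 q.2| ≤ c) : distortion S ≤ c := by
  apply Real.sSup_le _ hc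
  rintro r ⟨p, hp, q, hq, rfl⟩
  exact h p hp q hq

theorem le_distortion [Finite X] [Finite Y] (S : Set (X × Y)) {p q : X × Y} (hp : p ∈ S)
    (hq : q ∈ S) : |dist p.1 q.1 - dist p.2 q.2| ≤ distortion S := by
  apply le_csSup
  · apply Set.Finite.bddAbove
    apply Set.Finite.subset
      (Set.finite_range (fun t : (X × Y) × (X × Y) => |dist t.1.1 t.2.1 - dist t.1.2 t.2.2|))
    rintro r ⟨p, -, q, -, rfl⟩
    exact ⟨(p, q), rfl⟩
  · exact ⟨p, hp, q, hq, rfl⟩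

/-- An optimal correspondence has distortion at most that of any correspondence. -/
theorem IsOptimal.le {S T : Set (X × Y)} (hS : IsOptimal S) (hT : IsCorrespondence T) :
    distortion S ≤ distortion T := by
  rw [hS.2, dGH, ← mul_assoc]
  norm_num
  apply csInf_le
  · refine ⟨0, ?_⟩
    rintro r ⟨U, -, rfl⟩
    exact distortion_nonneg U
  · exact ⟨T, hT, rfl⟩

theorem IsOptimal.bound [Finite X] [Finite Y] {S T : Set (X × Y)} (hS : IsOptimal S)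
    (hT : IsCorrespondence T) {c : ℝ} (hc : 0 ≤ c)
    (h : ∀ p ∈ T, ∀ q ∈ T, |dist p.1 q.1 - dist p.2 q.2| ≤ c)
    {p q : X × Y} (hp : p ∈ S) (hq : q ∈ S) : |dist p.1 q.1 - dist p.2 q.2| ≤ c :=
  (le_distortion S hp hq).trans ((hS.le hT).trans (distortion_le T hc h))

end General

/-- The three spaces are the subsets `{0,3}`, `{0,5}` and `{0,2,3,5}` of the real line. -/
abbrev A : Type := ({0, 3} : Set ℝ)
abbrev B : Type := ({0, 5} : Set ℝ)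
abbrev C : Type := ({0, 2, 3, 5} : Set ℝ)


theorem boundAB {S : Set (A × B)} (hS : IsOptimal S) {p q : A × B} (hp : p ∈ S) (hq : q ∈ S) :
    |dist p.1 q.1 - dist p.2 q.2| ≤ 2 := by
  refine hS.bound (T := {t : A × B | 5 * (t.1 : ℝ) = 3 * (t.2 : ℝ)}) ⟨?_, ?_⟩ (by norm_num) ?_ hp hq
  · rintro ⟨x, rfl | rfl⟩
    · exact ⟨⟨0, by simp⟩, by simp⟩
    · exact ⟨⟨5, by simp⟩, by norm_num⟩
  · rintro ⟨x, rfl | rfl⟩
    · exact ⟨⟨0, by simp⟩, by simp⟩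
    · exact ⟨⟨3, by simp⟩, by norm_num⟩
  · rintro ⟨⟨a, rfl | rfl⟩, ⟨b, rfl | rfl⟩⟩ h1 ⟨⟨a', rfl | rfl⟩, ⟨b', rfl | rfl⟩⟩ h2 <;>
      simp only [Set.mem_ofPred_eq] at h1 h2 <;>
      simp only [Subtype.dist_eq, Real.dist_eq] <;> revert h1 h2 <;> norm_num

theorem boundAC {S : Set (A × C)} (hS : IsOptimal S) {p q : A × C} (hp : p ∈ S) (hq : q ∈ S) :
    |dist p.1 q.1 - dist p.2 q.2| ≤ 2 := by
  refine hS.bound (T := {t : A × C | (t.2 : ℝ) = (t.1 : ℝ) ∨ (t.2 : ℝ) = (t.1 : ℝ) + 2}) ⟨?_, ?_⟩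
    (by norm_num) ?_ hp hq
  · rintro ⟨x, rfl | rfl⟩
    · exact ⟨⟨0, by simp⟩, by simp⟩
    · exact ⟨⟨3, by simp⟩, by simp⟩
  · rintro ⟨x, rfl | rfl | rfl | rfl⟩
    · exact ⟨⟨0, by simp⟩, by simp⟩
    · exact ⟨⟨0, by simp⟩, by simp⟩
    · exact ⟨⟨3, by simp⟩, by simp⟩
    · exact ⟨⟨3, by simp⟩, by norm_num⟩
  · rintro ⟨⟨a, rfl | rfl⟩, ⟨b, rfl | rfl | rfl | rfl⟩⟩ h1
      ⟨⟨a', rfl | rfl⟩, ⟨b', rfl | rfl | rfl | rfl⟩⟩ h2 <;>
      simp only [Set.mem_ofPred_eq] at h1 h2 <;>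
      simp only [Subtype.dist_eq, Real.dist_eq] <;> revert h1 h2 <;> norm_num

theorem boundBC {S : Set (B × C)} (hS : IsOptimal S) {p q : B × C} (hp : p ∈ S) (hq : q ∈ S) :
    |dist p.1 q.1 - dist p.2 q.2| ≤ 3 := by
  refine hS.bound (T := {t : B × C | ((t.1 : ℝ) = 0 ∧ (t.2 : ℝ) ≤ 3) ∨ ((t.1 : ℝ) = 5 ∧ (t.2 : ℝ) = 5)})
    ⟨?_, ?_⟩ (by norm_num) ?_ hp hq
  · rintro ⟨x, rfl | rfl⟩
    · exact ⟨⟨0, by simp⟩, by simp⟩
    · exact ⟨⟨5, by simp⟩, by simp⟩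
  · rintro ⟨x, rfl | rfl | rfl | rfl⟩
    · exact ⟨⟨0, by simp⟩, by simp⟩
    · exact ⟨⟨0, by simp⟩, by norm_num⟩
    · exact ⟨⟨0, by simp⟩, by simp⟩
    · exact ⟨⟨5, by simp⟩, by simp⟩
  · rintro ⟨⟨a, rfl | rfl⟩, ⟨b, rfl | rfl | rfl | rfl⟩⟩ h1
      ⟨⟨a', rfl | rfl⟩, ⟨b', rfl | rfl | rfl | rfl⟩⟩ h2 <;>
      simp only [Set.mem_ofPred_eq] at h1 h2 <;>
      simp only [Subtype.dist_eq, Real.dist_eq] <;> revert h1 h2 <;> norm_num

theorem no_triple (R : Set (A × B × C))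
    (h12 : IsOptimal ((fun t : A × B × C => (t.1, t.2.1)) '' R))
    (h13 : IsOptimal ((fun t : A × B × C => (t.1, t.2.2)) '' R))
    (h23 : IsOptimal ((fun t : A × B × C => (t.2.1, t.2.2)) '' R)) : False := by
  have pick : ∀ c : C, ∃ a : A, ∃ b : B, (a, b, c) ∈ R := by
    intro c
    obtain ⟨a, ⟨a', b, c'⟩, ht, he⟩ := h13.1.2 c
    simp only [Prod.mk.injEq] at he
    obtain ⟨rfl, rfl⟩ := he
    exact ⟨a', b, ht⟩
  obtain ⟨a0, b0, h0⟩ := pick ⟨0, by simp⟩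
  obtain ⟨a2, b2, h2⟩ := pick ⟨2, by simp⟩
  obtain ⟨a3, b3, h3⟩ := pick ⟨3, by simp⟩
  obtain ⟨a5, b5, h5⟩ := pick ⟨5, by simp⟩
  have e1 := boundBC h23 ⟨_, h2, rfl⟩ ⟨_, h3, rfl⟩
  have e2 := boundAB h12 ⟨_, h2, rfl⟩ ⟨_, h3, rfl⟩
  have e3 := boundAC h13 ⟨_, h0, rfl⟩ ⟨_, h3, rfl⟩
  have e4 := boundAC h13 ⟨_, h5, rfl⟩ ⟨_, h2, rfl⟩
  have e5 := boundAC h13 ⟨_, h0, rfl⟩ ⟨_, h5, rfl⟩
  simp only [Subtype.dist_eq, Real.dist_eq] at e1 e2 e3 e4 e5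
  clear h0 h2 h3 h5
  obtain ⟨a0, rfl | rfl⟩ := a0 <;> obtain ⟨a2, rfl | rfl⟩ := a2 <;>
    obtain ⟨a3, rfl | rfl⟩ := a3 <;> obtain ⟨a5, rfl | rfl⟩ := a5 <;>
    obtain ⟨b2, rfl | rfl⟩ := b2 <;> obtain ⟨b3, rfl | rfl⟩ := b3 <;>
    revert e1 e2 e3 e4 e5 <;> norm_num

/-- It is false that any three nonempty compact metric spaces admit a ternary relation whose three
pairwise projections are optimal correspondences. -/
theorem result :
    ¬ (∀ (X₁ X₂ X₃ : Type) [MetricSpace X₁] [MetricSpace X₂] [MetricSpace X₃]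
        [CompactSpace X₁] [CompactSpace X₂] [CompactSpace X₃]
        [Nonempty X₁] [Nonempty X₂] [Nonempty X₃],
        ∃ R : Set (X₁ × X₂ × X₃),
          IsOptimal ((fun t : X₁ × X₂ × X₃ => (t.1, t.2.1)) '' R) ∧
          IsOptimal ((fun t : X₁ × X₂ × X₃ => (t.1, t.2.2)) '' R) ∧
          IsOptimal ((fun t : X₁ × X₂ × X₃ => (t.2.1, t.2.2)) '' R)) := by
  intro h
  have : Nonempty A := ⟨⟨0, by simp⟩⟩
  have : Nonempty B := ⟨⟨0, by simp⟩⟩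
  have : Nonempty C := ⟨⟨0, by simp⟩⟩
  obtain ⟨R, h12, h13, h23⟩ := h A B C
  exact no_triple R h12 h13 h23

end Pool.Agent.Results.MP_029391_gt.ThreeSpaces
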